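import Pool.Agent.H648.Q.Defs2
import Pool.Agent.H17.Q648.Lg0
import Pool.Agent.H321.Q648.LEG
import Pool.Agent.H643.Q648.CLS

/-!
Project Q648, LEG2: a primitive element `x + y √D` of norm `p r^2`, `A ∣ y`, with `x` prime to `A` and
`(D / x) = 1` (helper264).
-/

set_option autoImplicit false

namespace Pool.Agent.H264.Q648

open Pool.Agent.H648.Q
open Pool.Agent.H648.Q2 (IsChi chi S_CHI S_LEG2)
open Pool.Agent.H321.Q648 (sign_exists crt)
open scoped NumberTheorySymbols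

/-- the theorem `leg_of` of helper321, with a congruence for `p` -/
theorem leg1 (h : S_LG0) : ∀ (D : ℤ) (A : ℕ), ¬ IsSquare D → 2 ≤ A →
    ∃ (x y r : ℤ) (p : ℕ), p.Prime ∧ r ≠ 0 ∧ Int.gcd x A = 1 ∧ (A : ℤ) ∣ y ∧
      x ^ 2 - D * y ^ 2 = p * r ^ 2 ∧ (A : ℤ) ∣ (p : ℤ) - 1 := by
  intro D A hD hA2
  have hA1 : A ≠ 1 := by omega
  have hA : 1 ≤ A := by omega
  have hD0 : D ≠ 0 := by
    rintro rfl; exact hD ⟨0, by simp⟩
  set J := D.natAbs + 3 with hJ
  set E := A ^ (J + 1) with hE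
  obtain ⟨p, x, y, w, hp, hpN, hprim, hw, he⟩ := h D (A ^ (J + 1)) hD (Nat.one_le_pow _ _ hA)
  have hsign := sign_exists hD0 hprim he
  choose! ε hε1 hε2 using hsign
  obtain ⟨s, hs⟩ := crt A E ε (fun q hq => hε1 q (Nat.prime_of_mem_primeFactors hq))
  have hp1 : ((A : ℤ) ^ (J + 1)) ∣ (p : ℤ) - 1 := by
    have := Nat.modEq_iff_dvd.1 hpN.symm
    push_cast at this
    exact this
  have hJE : J ≤ E := by
    have h1 : J + 1 < 2 ^ (J + 1) := Nat.lt_pow_self one_lt_two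
    have h2 : 2 ^ (J + 1) ≤ A ^ (J + 1) := Nat.pow_le_pow_left hA2 _
    omega
  have hs2 : ∀ q ∈ A.primeFactors, (q : ℤ) ^ E ∣ s ^ 2 - 1 := by
    intro q hq
    have h1 := hs q hq
    rcases hε1 q (Nat.prime_of_mem_primeFactors hq) with h | h
    · rw [h] at h1
      have e : s ^ 2 - 1 = (s - 1) * (s + 1) := by ring
      rw [e]; exact h1.mul_right _
    · rw [h] at h1
      have e : s ^ 2 - 1 = (s - -1) * (s - 1) := by ring
      rw [e]; exact h1.mul_right _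
  have hs3 : ((A : ℤ) ^ (J + 1)) ∣ s ^ 2 - 1 := by
    rw [← Int.natAbs_dvd_natAbs, Int.natAbs_pow, Int.natAbs_natCast,
      Nat.dvd_iff_prime_pow_dvd_dvd]
    intro q k hq hqk
    rcases Nat.eq_zero_or_pos k with hk | hk
    · rw [hk]; simp
    have h1 : q ∣ A := hq.dvd_of_dvd_pow ((dvd_pow_self q hk.ne').trans hqk)
    have h2 : q ∈ A.primeFactors := Nat.mem_primeFactors.2 ⟨hq, h1, by omega⟩
    have h3 : k ≤ E := by
      have h4 := Nat.le_of_dvd (Nat.pow_pos (by omega : 0 < A)) hqk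
      have h5 : k < q ^ k := Nat.lt_pow_self hq.one_lt
      omega
    have h6 := Int.natAbs_dvd_natAbs.2 (hs2 q h2)
    rw [Int.natAbs_pow, Int.natAbs_natCast] at h6
    exact (pow_dvd_pow q h3).trans h6
  have hsp : ((A : ℤ) ^ (J + 1)) ∣ s ^ 2 - p := by
    have e : s ^ 2 - (p : ℤ) = (s ^ 2 - 1) - (p - 1) := by ring
    rw [e]; exact dvd_sub hs3 hp1
  -- the new solution
  set a : ℤ := (p + s ^ 2) * x + 2 * p * s * w with ha
  set b : ℤ := (s ^ 2 - p) * y with hb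
  set r : ℤ := p * w + 2 * x * s + w * s ^ 2 with hr
  have hid : a ^ 2 - D * b ^ 2 = p * r ^ 2 := by
    have e : a ^ 2 - D * b ^ 2 - p * r ^ 2 =
      (s ^ 2 - p) ^ 2 * (x ^ 2 - D * y ^ 2 - p * w ^ 2) := by
      rw [ha, hb, hr]; ring
    rw [he, sub_self, mul_zero] at e
    linarith
  have hna : ∀ q : ℕ, q.Prime → q ∣ A → ¬ (q : ℤ) ^ J ∣ a := by
    intro q hq hqA hdvd
    have hmem : q ∈ A.primeFactors := Nat.mem_primeFactors.2 ⟨hq, hqA, by omega⟩
    have hqA' : (q : ℤ) ∣ A := by exact_mod_cast hqA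
    have h1 : (q : ℤ) ^ J ∣ (p : ℤ) - 1 :=
      ((pow_dvd_pow _ (by omega)).trans (pow_dvd_pow_of_dvd hqA' (J + 1))).trans hp1
    have h2 : (q : ℤ) ^ J ∣ s ^ 2 - 1 := (pow_dvd_pow _ hJE).trans (hs2 q hmem)
    have h3 : (q : ℤ) ^ J ∣ s - ε q := (pow_dvd_pow _ hJE).trans (hs q hmem)
    apply hε2 q hq
    have e : 2 * (x + ε q * w) = a - ((p - 1) * x + (s ^ 2 - 1) * x + (p - 1) * (2 * s * w) +
        (s - ε q) * (2 * w)) := by
      rw [ha]; ring
    rw [e]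
    refine dvd_sub hdvd ?_
    exact dvd_add (dvd_add (dvd_add (h1.mul_right _) (h2.mul_right _)) (h1.mul_right _))
      (h3.mul_right _)
  have ha0 : a ≠ 0 := by
    intro h0
    obtain ⟨q, hq, hqA⟩ := Nat.exists_prime_and_dvd hA1
    exact hna q hq hqA (by rw [h0]; exact dvd_zero _)
  -- the common factor
  set g : ℕ := Int.gcd a ((A : ℤ) ^ J) with hg
  have hg0 : g ≠ 0 := by
    rw [hg]
    intro h0
    exact ha0 (Int.gcd_eq_zero_iff.1 h0).1
  have hga : (g : ℤ) ∣ a := Int.gcd_dvd_left _ _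
  have hgA : (g : ℤ) ∣ (A : ℤ) ^ J := Int.gcd_dvd_right _ _
  obtain ⟨x', hx'⟩ := hga
  obtain ⟨y', hy'⟩ : ((g : ℤ) * A) ∣ b := by
    have h1 : (g : ℤ) * A ∣ (A : ℤ) ^ (J + 1) := by
      rw [pow_succ]; exact mul_dvd_mul_right hgA _
    rw [hb]
    exact (h1.trans hsp).mul_right _
  have hcopgp : Nat.Coprime g p := by
    have h1 : Nat.Coprime A p := by
      rw [Nat.coprime_comm, hp.coprime_iff_not_dvd]
      intro hpA
      have h2 : (p : ℤ) ∣ (p : ℤ) - 1 :=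
        ((Int.natCast_dvd_natCast.2 hpA).trans (dvd_pow_self _ (by omega))).trans hp1
      have h3 : (p : ℤ) ∣ 1 := by
        have := dvd_sub dvd_rfl h2
        simpa using this
      have h4 : p ∣ 1 := by exact_mod_cast h3
      exact hp.one_lt.ne' (Nat.dvd_one.1 h4)
    have h2 : g ∣ A ^ J := by exact_mod_cast hgA
    exact Nat.Coprime.coprime_dvd_left h2 (Nat.Coprime.pow_left J h1)
  have hgz : (g : ℤ) ≠ 0 := by exact_mod_cast hg0
  obtain ⟨r', hr'⟩ : (g : ℤ) ∣ r := by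
    have h1 : (g : ℤ) ^ 2 ∣ p * r ^ 2 := by
      rw [← hid, hx', hy']
      refine dvd_sub ?_ ?_
      · rw [mul_pow]; exact dvd_mul_right _ _
      · have e : D * (g * A * y') ^ 2 = (g : ℤ) ^ 2 * (D * (A * y') ^ 2) := by ring
        rw [e]; exact dvd_mul_right _ _
    have h2 : IsCoprime ((g : ℤ) ^ 2) (p : ℤ) :=
      IsCoprime.pow_left (Nat.isCoprime_iff_coprime.2 hcopgp)
    have h3 : (g : ℤ) ^ 2 ∣ r ^ 2 := h2.dvd_of_dvd_mul_left h1
    exact (Int.pow_dvd_pow_iff two_ne_zero).1 h3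
  have hfin : x' ^ 2 - D * (A * y') ^ 2 = p * r' ^ 2 := by
    have h1 := hid
    rw [hx', hy', hr'] at h1
    have h2 : (g : ℤ) ^ 2 * (x' ^ 2 - D * (A * y') ^ 2) = (g : ℤ) ^ 2 * (p * r' ^ 2) := by
      linarith
    exact mul_left_cancel₀ (pow_ne_zero 2 hgz) h2
  have hx0 : x' ≠ 0 := by
    rintro rfl
    rw [mul_zero] at hx'
    exact ha0 hx'
  refine ⟨x', A * y', r', p, hp, ?_, ?_, dvd_mul_right _ _, hfin,
    (dvd_pow_self _ (by omega)).trans hp1⟩
  · rintro rfl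
    apply hD
    have h1 : x' ^ 2 = D * (A * y') ^ 2 := by linarith
    have hY : (A * y') ≠ 0 := by
      intro h0
      rw [h0] at h1
      apply hx0
      have : x' ^ 2 = 0 := by rw [h1]; ring
      exact pow_eq_zero_iff two_ne_zero |>.1 this
    have h2 : (A * y') ^ 2 ∣ x' ^ 2 := ⟨D, by rw [h1]; ring⟩
    obtain ⟨z, hz⟩ := (Int.pow_dvd_pow_iff two_ne_zero).1 h2
    refine ⟨z, ?_⟩
    rw [hz] at h1
    have h3 : (A * y') ^ 2 * (z * z) = (A * y') ^ 2 * D := by linarith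
    exact (mul_left_cancel₀ (pow_ne_zero 2 hY) h3).symm
  · -- coprime
    by_contra hne
    obtain ⟨q, hq, hqd⟩ := Nat.exists_prime_and_dvd hne
    have hqx : (q : ℤ) ∣ x' := (Int.natCast_dvd_natCast.2 hqd).trans (Int.gcd_dvd_left _ _)
    have hqA' : (q : ℤ) ∣ A := (Int.natCast_dvd_natCast.2 hqd).trans (Int.gcd_dvd_right _ _)
    have hqA : q ∣ A := by exact_mod_cast hqA'
    -- let `q ^ k` be the exact power of `q` in `a`
    have hind : ∀ k : ℕ, k ≤ J → (q : ℤ) ^ k ∣ a := by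
      intro k
      induction k with
      | zero => intro _; simp
      | succ k ih =>
        intro hk
        have h1 := ih (by omega)
        have h2 : (q : ℤ) ^ k ∣ (A : ℤ) ^ J :=
          (pow_dvd_pow _ (by omega)).trans (pow_dvd_pow_of_dvd hqA' J)
        have h3 : (q : ℤ) ^ k ∣ (g : ℤ) := Int.dvd_coe_gcd h1 h2
        rw [hx', pow_succ]
        exact mul_dvd_mul h3 hqx
    exact hna q hq hqA (hind J le_rfl)


/-! ### division by the common factor -/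

lemma dvd_of_sq_dvd {p : ℕ} (hp : p.Prime) {g s n : ℤ} (h : g ^ 2 * n = p * s ^ 2) : g ∣ s := by
  have hpi : Prime (p : ℤ) := Nat.prime_iff_prime_int.1 hp
  rcases eq_or_ne g 0 with rfl | hg
  · have h1 : (p : ℤ) * s ^ 2 = 0 := by rw [← h]; ring
    have h2 : s = 0 := by
      rcases mul_eq_zero.1 h1 with h3 | h3
      · exact absurd h3 hpi.ne_zero
      · exact pow_eq_zero_iff two_ne_zero |>.1 h3
    rw [h2]
  · have hpos : 0 < Int.gcd g s := Int.gcd_pos_of_ne_zero_left _ hg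
    obtain ⟨g', s', hcop, hg', hs'⟩ := Int.exists_gcd_one hpos
    have hk : ((Int.gcd g s : ℕ) : ℤ) ≠ 0 := by exact_mod_cast hpos.ne'
    set k : ℤ := ((Int.gcd g s : ℕ) : ℤ) with hkd
    have h1 : g' ^ 2 * n = p * s' ^ 2 := by
      have h2 : k ^ 2 * (g' ^ 2 * n) = k ^ 2 * (p * s' ^ 2) := by
        rw [hg', hs'] at h
        linear_combination h
      exact mul_left_cancel₀ (pow_ne_zero 2 hk) h2
    have h3 : IsCoprime (g' ^ 2) (s' ^ 2) :=
      IsCoprime.pow (Int.isCoprime_iff_gcd_eq_one.2 hcop)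
    have h4 : g' ^ 2 ∣ (p : ℤ) := h3.dvd_of_dvd_mul_right ⟨n, h1.symm⟩
    have h5 : IsUnit g' := hpi.irreducible.squarefree g' (by rw [← sq]; exact h4)
    rw [hg', hs']
    exact mul_dvd_mul (h5.dvd) dvd_rfl

lemma prim_div {D : ℤ} {A : ℕ} {x y r : ℤ} {p : ℕ} (hp : p.Prime) (hA : 2 ≤ A) (hr : r ≠ 0)
    (hx : Int.gcd x A = 1) (hy : (A : ℤ) ∣ y) (he : x ^ 2 - D * y ^ 2 = p * r ^ 2) :
    ∃ (g : ℕ) (x' y' r' : ℤ), 0 < g ∧ x = g * x' ∧ y = g * y' ∧ r = g * r' ∧ r' ≠ 0 ∧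
      Int.gcd x' A = 1 ∧ (A : ℤ) ∣ y' ∧ Int.gcd x' y' = 1 ∧ x' ^ 2 - D * y' ^ 2 = p * r' ^ 2 ∧
      Nat.Coprime g A := by
  have hx0 : x ≠ 0 := by
    rintro rfl
    rw [Int.gcd_zero_left, Int.natAbs_natCast] at hx
    omega
  have hpos : 0 < Int.gcd x y := Int.gcd_pos_of_ne_zero_left _ hx0
  obtain ⟨x', y', hcop, hx', hy'⟩ := Int.exists_gcd_one hpos
  set g : ℕ := Int.gcd x y with hg
  have hgz : (g : ℤ) ≠ 0 := by exact_mod_cast hpos.ne'
  have hgx : (g : ℤ) ∣ x := Int.gcd_dvd_left _ _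
  have hgA : Nat.Coprime g A := by
    have h1 : IsCoprime x (A : ℤ) := Int.isCoprime_iff_gcd_eq_one.2 hx
    have h2 : IsCoprime (g : ℤ) (A : ℤ) := h1.of_isCoprime_of_dvd_left hgx
    exact Nat.isCoprime_iff_coprime.1 h2
  have hxe : x = g * x' := by rw [hx', mul_comm]
  have hye : y = g * y' := by rw [hy', mul_comm]
  have h1 : (g : ℤ) ^ 2 * (x' ^ 2 - D * y' ^ 2) = p * r ^ 2 := by
    rw [← he, hxe, hye]
    ring
  obtain ⟨r', hr'⟩ := dvd_of_sq_dvd hp h1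
  refine ⟨g, x', y', r', hpos, hxe, hye, hr', ?_, ?_, ?_, hcop, ?_, hgA⟩
  · rintro rfl
    apply hr
    rw [hr', mul_zero]
  · have h2 : IsCoprime x (A : ℤ) := Int.isCoprime_iff_gcd_eq_one.2 hx
    exact Int.isCoprime_iff_gcd_eq_one.1 (h2.of_isCoprime_of_dvd_left ⟨g, by rw [hxe, mul_comm]⟩)
  · have h2 : IsCoprime (A : ℤ) (g : ℤ) := Nat.isCoprime_iff_coprime.2 hgA.symm
    exact h2.dvd_of_dvd_mul_left (by rw [← hye]; exact hy)
  · have h2 : (g : ℤ) ^ 2 * (x' ^ 2 - D * y' ^ 2) = (g : ℤ) ^ 2 * (p * r' ^ 2) := by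
      rw [h1, hr']
      ring
    exact mul_left_cancel₀ (pow_ne_zero 2 hgz) h2

/-! ### symbols -/

lemma jac_of_sq {b : ℕ} {a w : ℤ} (hcop : Int.gcd a b = 1) (h : (b : ℤ) ∣ w ^ 2 - a) :
    J(a | b) = 1 := by
  have h1 : J(a | b) = J(w | b) ^ 2 := by
    rw [← jacobiSym.pow_left]
    exact jacobiSym.mod_left' (Int.modEq_iff_dvd.2 h)
  rcases jacobiSym.eq_one_or_neg_one hcop with h2 | h2
  · exact h2
  · rw [h2] at h1
    have h3 := sq_nonneg (J(w | b))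
    omega

lemma one_mod_four {b : ℕ} {i : ℤ} (hb : Odd b) (hi : (b : ℤ) ∣ i ^ 2 + 1) : b % 4 = 1 := by
  have h1 : J(-1 | b) = 1 := jac_of_sq (w := i) (by simp) (by rw [sub_neg_eq_add]; exact hi)
  rw [jacobiSym.at_neg_one hb, ZMod.χ₄_nat_eq_if_mod_four] at h1
  have h2 : b % 2 = 1 := Nat.odd_iff.1 hb
  rw [if_neg (by omega)] at h1
  by_contra h3
  rw [if_neg h3] at h1
  norm_num at h1

lemma jac_odd {b x r : ℕ} {i : ℤ} (hb : Odd b) (hi : (b : ℤ) ∣ i ^ 2 + 1) (hx : Nat.Coprime x b)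
    (hr : Nat.Coprime r b) (hxo : Odd x) (hro : Odd r) (h : (b : ℤ) ∣ (x : ℤ) ^ 2 - (r : ℤ) ^ 2) :
    J((b : ℤ) | x * r) = 1 := by
  rw [jacobiSym.quadratic_reciprocity_one_mod_four (one_mod_four hb hi) (hxo.mul hro)]
  have h2 : Int.gcd 2 b = 1 := by
    have h3 : Nat.Coprime 2 b := Nat.coprime_two_left.2 hb
    exact h3
  have hxr : Nat.Coprime (x * r) b := Nat.Coprime.mul_left hx hr
  have hcop : Int.gcd ((2 : ℤ) ^ 2 * ((x * r : ℕ) : ℤ)) b = 1 := by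
    have h3 : Nat.Coprime (2 ^ 2 * (x * r)) b :=
      Nat.Coprime.mul_left (Nat.Coprime.pow_left 2 (Nat.coprime_two_left.2 hb)) hxr
    have h4 : (2 : ℤ) ^ 2 * ((x * r : ℕ) : ℤ) = ((2 ^ 2 * (x * r) : ℕ) : ℤ) := by push_cast; ring
    rw [h4, Int.gcd_natCast_natCast]
    exact h3
  have h5 : J((2 : ℤ) ^ 2 * ((x * r : ℕ) : ℤ) | b) = 1 := by
    refine jac_of_sq (w := (r : ℤ) + x + i * (r - x)) hcop ?_
    have h6 : ((r : ℤ) + x + i * (r - x)) ^ 2 - (2 : ℤ) ^ 2 * ((x * r : ℕ) : ℤ) =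
        (i ^ 2 + 1) * (r - x) ^ 2 - ((x : ℤ) ^ 2 - (r : ℤ) ^ 2) * (2 * i) := by
      push_cast
      ring
    rw [h6]
    exact dvd_sub (hi.mul_right _) (h.mul_right _)
  rw [jacobiSym.mul_left, jacobiSym.sq_one' h2, one_mul] at h5
  exact h5

lemma jac_two {x r : ℕ} (hxo : Odd x) (hro : Odd r)
    (h : (16 : ℤ) ∣ (x : ℤ) ^ 2 - (r : ℤ) ^ 2) : J(2 | x * r) = 1 := by
  rw [jacobiSym.at_two (hxo.mul hro), ZMod.χ₈_nat_eq_if_mod_eight]
  have hx1 := Nat.odd_iff.1 hxo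
  have hr1 := Nat.odd_iff.1 hro
  have h1 : (x * r) % 2 = 1 := Nat.odd_iff.1 (hxo.mul hro)
  rw [if_neg (by omega)]
  have h2 : (x ^ 2) % 16 = (r ^ 2) % 16 := by
    have h3 : ((r : ℤ) ^ 2) ≡ ((x : ℤ) ^ 2) [ZMOD ((16 : ℕ) : ℤ)] := Int.modEq_iff_dvd.2 h
    have h4 : ((r ^ 2 : ℕ) : ℤ) ≡ ((x ^ 2 : ℕ) : ℤ) [ZMOD ((16 : ℕ) : ℤ)] := by
      push_cast
      exact h3
    exact ((Int.natCast_modEq_iff).1 h4).symm
  have key : ∀ X R : Fin 16, X.val % 2 = 1 → R.val % 2 = 1 → X.val ^ 2 % 16 = R.val ^ 2 % 16 →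
      (X.val * R.val) % 8 = 1 ∨ (X.val * R.val) % 8 = 7 := by decide
  have h5 := key ⟨x % 16, Nat.mod_lt _ (by norm_num)⟩ ⟨r % 16, Nat.mod_lt _ (by norm_num)⟩
    (by simp only; omega) (by simp only; omega)
    (by simp only; rw [← Nat.pow_mod, ← Nat.pow_mod]; exact h2)
  simp only at h5
  have h6 : (x * r) % 8 = ((x % 16) * (r % 16)) % 8 := by
    rw [Nat.mul_mod, Nat.mul_mod (x % 16)]
    have h7 : x % 16 % 8 = x % 8 := by omega
    have h8 : r % 16 % 8 = r % 8 := by omega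
    rw [h7, h8]
  rw [h6, if_pos h5]

/-- case 1: `D` is a sum of two squares -/
lemma jac_case1 {D x r : ℕ} (hD : 0 < D) (hsum : ∃ a b : ℕ, D = a ^ 2 + b ^ 2)
    (hx : Nat.Coprime x D) (hr : Nat.Coprime r D) (hxo : Odd x) (hro : Odd r)
    (h : ((16 * D : ℕ) : ℤ) ∣ (x : ℤ) ^ 2 - (r : ℤ) ^ 2) : J((D : ℤ) | x * r) = 1 := by
  obtain ⟨a, b, hab, hsq⟩ := Nat.eq_sq_add_sq_iff_eq_sq_mul.1 hsum
  have ha0 : a ≠ 0 := by
    rintro rfl
    rw [hab] at hD
    simp at hD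
  have hb0 : b ≠ 0 := by
    rintro rfl
    rw [hab] at hD
    simp at hD
  have : NeZero b := ⟨hb0⟩
  obtain ⟨i, hi⟩ : ∃ i : ℤ, (b : ℤ) ∣ i ^ 2 + 1 := by
    obtain ⟨z, hz⟩ := hsq
    obtain ⟨i, rfl⟩ := ZMod.intCast_surjective z
    refine ⟨i, ?_⟩
    rw [← ZMod.intCast_zmod_eq_zero_iff_dvd]
    push_cast
    rw [sq, ← hz]
    ring
  have haD : a ∣ D := ⟨a * b, by rw [hab]; ring⟩
  have hbD : b ∣ D := ⟨a ^ 2, by rw [hab]; ring⟩
  have hxb : Nat.Coprime x b := Nat.Coprime.coprime_dvd_right hbD hx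
  have hrb : Nat.Coprime r b := Nat.Coprime.coprime_dvd_right hbD hr
  have hxra : Nat.Coprime a (x * r) :=
    (Nat.Coprime.mul_left (Nat.Coprime.coprime_dvd_right haD hx)
      (Nat.Coprime.coprime_dvd_right haD hr)).symm
  have h16 : (16 : ℤ) ∣ (x : ℤ) ^ 2 - (r : ℤ) ^ 2 :=
    (Dvd.intro (D : ℤ) (by push_cast; ring)).trans h
  have hbx : (b : ℤ) ∣ (x : ℤ) ^ 2 - (r : ℤ) ^ 2 := by
    refine Dvd.dvd.trans ?_ h
    exact_mod_cast hbD.trans (Dvd.intro_left 16 rfl)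
  have hJa : J((a : ℤ) ^ 2 | x * r) = 1 := jacobiSym.sq_one' (by
    rw [Int.gcd_natCast_natCast]; exact hxra)
  have hDe : (D : ℤ) = (a : ℤ) ^ 2 * b := by rw [hab]; push_cast; ring
  rw [hDe, jacobiSym.mul_left, hJa, one_mul]
  rcases Nat.even_or_odd' b with ⟨b', hb' | hb'⟩
  · have hb'o : Odd b' := by
      by_contra hcon
      rw [Nat.not_odd_iff_even] at hcon
      obtain ⟨c, hc⟩ := hcon
      have h4 : (4 : ℤ) ∣ i ^ 2 + 1 := by
        refine Dvd.dvd.trans ?_ hi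
        refine ⟨c, ?_⟩
        rw [hb', hc]
        push_cast
        ring
      have h5 : (i ^ 2 + 1) % 4 = 0 := Int.emod_eq_zero_of_dvd h4
      have h6 : i % 4 = 0 ∨ i % 4 = 1 ∨ i % 4 = 2 ∨ i % 4 = 3 := by omega
      rcases h6 with h6 | h6 | h6 | h6 <;>
      · rw [sq, Int.add_emod, Int.mul_emod, h6] at h5
        norm_num at h5
    have hbz : (b : ℤ) = 2 * (b' : ℤ) := by rw [hb']; push_cast; ring
    have hb'b : b' ∣ b := ⟨2, by rw [hb']; ring⟩
    have hb'z : (b' : ℤ) ∣ (b : ℤ) := by exact_mod_cast hb'b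
    rw [hbz, jacobiSym.mul_left, jac_two hxo hro h16, one_mul]
    exact jac_odd hb'o (hb'z.trans hi) (Nat.Coprime.coprime_dvd_right hb'b hxb)
      (Nat.Coprime.coprime_dvd_right hb'b hrb) hxo hro (hb'z.trans hbx)
  · exact jac_odd ⟨b', hb'⟩ hi hxb hrb hxo hro hbx

/-- case 2: an element of square norm and character `-1` -/
lemma case2 {D A q : ℕ} (hq : q.Prime) (hq4 : q % 4 = 3) (hv : ¬ Even (padicValNat q D))
    (hD : 0 < D) (hA : 0 < A) (hDA : 4 * D ∣ A) :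
    ∃ (X : ℕ) (N : ℤ), 0 < X ∧ Nat.Coprime X A ∧ N ≠ 0 ∧
      (X : ℤ) ^ 2 - D * (2 * A) ^ 2 = N ^ 2 ∧ J((D : ℤ) | X) = -1 := by
  have hqf : Fact q.Prime := ⟨hq⟩
  obtain ⟨v, D1, hD1, hDe⟩ := Nat.exists_eq_pow_mul_and_not_dvd hD.ne' q hq.ne_one
  obtain ⟨w, A1, hA1, hAe⟩ := Nat.exists_eq_pow_mul_and_not_dvd hA.ne' q hq.ne_one
  have hv1 : ¬ Even v := by
    have h1 : padicValNat q D = v := by
      rw [hDe, padicValNat.mul (pow_ne_zero _ hq.ne_zero) (by rintro rfl; exact hD1 (dvd_zero _)),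
        padicValNat.prime_pow, padicValNat.eq_zero_of_not_dvd hD1, add_zero]
    rw [← h1]
    exact hv
  have hqodd : q % 2 = 1 := by omega
  have hq2 : Nat.Coprime 2 q := Nat.coprime_two_left.2 (Nat.odd_iff.2 hqodd)
  have h4A1 : 4 ∣ A1 := by
    have h1 : 4 ∣ q ^ w * A1 := by rw [← hAe]; exact (Dvd.intro D rfl).trans hDA
    have h2 : Nat.Coprime 4 (q ^ w) := by
      have h3 : Nat.Coprime (2 ^ 2) (q ^ w) := Nat.Coprime.pow 2 w hq2
      simpa using h3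
    exact h2.dvd_of_dvd_mul_left h1
  have hqv : q ^ v % 4 = 3 := by
    rw [Nat.not_even_iff_odd] at hv1
    obtain ⟨c, hc⟩ := hv1
    rw [hc, pow_succ, pow_mul, Nat.mul_mod, Nat.pow_mod, Nat.pow_mod q 2, hq4]
    norm_num
  have hqw : (q ^ w) ^ 2 % 4 = 1 := by
    rw [← pow_mul, mul_comm, pow_mul, Nat.pow_mod, Nat.pow_mod q 2, hq4]
    norm_num
  obtain ⟨A2, hA2⟩ := h4A1
  set X : ℕ := D1 * A1 ^ 2 + q ^ v * (q ^ w) ^ 2 with hX
  have hXmod : X % 4 = 3 := by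
    have h1 : D1 * A1 ^ 2 = 4 * (4 * D1 * A2 ^ 2) := by rw [hA2]; ring
    have h2 : (q ^ v * (q ^ w) ^ 2) % 4 = 3 := by rw [Nat.mul_mod, hqv, hqw]
    rw [hX, h1]
    omega
  have hXodd : Odd X := Nat.odd_iff.2 (by omega)
  have hqpos : 0 < q := hq.pos
  have hXpos : 0 < X := by positivity
  -- coprimality
  have hXA : Nat.Coprime X A := by
    rw [Nat.coprime_iff_gcd_eq_one]
    by_contra hne
    obtain ⟨l, hl, hld⟩ := Nat.exists_prime_and_dvd hne
    have hlX : l ∣ X := hld.trans (Nat.gcd_dvd_left _ _)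
    have hlA : l ∣ A := hld.trans (Nat.gcd_dvd_right _ _)
    by_cases hlq : l = q
    · subst hlq
      have h1 : l ∣ l ^ v * (l ^ w) ^ 2 := by
        refine Dvd.dvd.mul_right (dvd_pow_self _ ?_) _
        rintro rfl
        exact hv1 ⟨0, rfl⟩
      have h2 : l ∣ D1 * A1 ^ 2 := (Nat.dvd_add_left h1).1 hlX
      rcases (hl.dvd_mul).1 h2 with h3 | h3
      · exact hD1 h3
      · exact hA1 (hl.dvd_of_dvd_pow h3)
    · have h1 : l ∣ A1 := by
        rw [hAe] at hlA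
        rcases (hl.dvd_mul).1 hlA with h3 | h3
        · exact absurd ((Nat.prime_dvd_prime_iff_eq hl hq).1 (hl.dvd_of_dvd_pow h3)) hlq
        · exact h3
      have h2 : l ∣ D1 * A1 ^ 2 := (h1.trans (dvd_pow_self _ two_ne_zero)).mul_left _
      have h3 : l ∣ q ^ v * (q ^ w) ^ 2 := (Nat.dvd_add_right h2).1 hlX
      rw [← pow_mul, ← pow_add] at h3
      exact hlq ((Nat.prime_dvd_prime_iff_eq hl hq).1 (hl.dvd_of_dvd_pow h3))
  have hXD : Nat.Coprime X D :=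
    Nat.Coprime.coprime_dvd_right ((Dvd.intro_left 4 rfl).trans hDA) hXA
  have hXD1 : Nat.Coprime X D1 :=
    Nat.Coprime.coprime_dvd_right ⟨q ^ v, by rw [hDe]; ring⟩ hXD
  have hXA1 : Nat.Coprime X A1 :=
    Nat.Coprime.coprime_dvd_right ⟨q ^ w, by rw [hAe]; ring⟩ hXA
  have hXqw : Nat.Coprime X (q ^ w) :=
    Nat.Coprime.coprime_dvd_right ⟨A1, hAe⟩ hXA
  refine ⟨X, (D1 : ℤ) * A1 ^ 2 - q ^ v * (q ^ w) ^ 2, hXpos, hXA, ?_, ?_, ?_⟩
  · intro h0
    have h1 : (D1 : ℤ) * A1 ^ 2 = q ^ v * (q ^ w) ^ 2 := by linarith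
    have h2 : D1 * A1 ^ 2 = q ^ v * (q ^ w) ^ 2 := by exact_mod_cast h1
    have h3 : X = 2 * (D1 * A1 ^ 2) := by rw [hX, ← h2]; ring
    omega
  · rw [hX, hDe, hAe]
    push_cast
    ring
  · have h1 : J(-(D : ℤ) | X) = 1 := by
      have h2 : J((D : ℤ) * (q ^ w : ℕ) ^ 2 * (-1) | X) = 1 := by
        refine jac_of_sq (w := (D1 : ℤ) * A1) ?_ ?_
        · have h3 : Nat.Coprime (D * (q ^ w) ^ 2) X :=
            Nat.Coprime.mul_left hXD.symm (Nat.Coprime.pow_left 2 hXqw.symm)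
          have h4 : (D : ℤ) * (q ^ w : ℕ) ^ 2 * (-1) = -((D * (q ^ w) ^ 2 : ℕ) : ℤ) := by
            push_cast
            ring
          rw [h4, Int.neg_gcd, Int.gcd_natCast_natCast]
          exact h3
        · refine ⟨D1, ?_⟩
          rw [hX, hDe]
          push_cast
          ring
      rw [mul_right_comm, jacobiSym.mul_left, jacobiSym.sq_one' (by
        rw [Int.gcd_natCast_natCast]; exact hXqw.symm), mul_one, mul_neg_one] at h2
      exact h2
    rw [jacobiSym.neg _ hXodd, ZMod.χ₄_nat_three_mod_four hXmod] at h1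
    linarith

lemma chi_neg_one {D : ℤ} {A : ℕ} (hD : D < 0) (hA : 1 ≤ A) (hDA : 4 * D ∣ (A : ℤ))
    (hc : IsChi A (chi D A)) (hc2 : ∀ n : ℕ, Nat.Coprime n A → chi D A n = jacobiSym D n) :
    chi D A (-1) = -1 := by
  obtain ⟨d, hd⟩ : ∃ d : ℕ, D = -(d : ℤ) := ⟨D.natAbs, by omega⟩
  have hd1 : 1 ≤ d := by omega
  have hdA : 4 * d ∣ A := by
    have h1 : ((4 * d : ℕ) : ℤ) ∣ (A : ℤ) := by
      have h2 : 4 * D = -((4 * d : ℕ) : ℤ) := by rw [hd]; push_cast; ring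
      rw [h2, neg_dvd] at hDA
      exact hDA
    exact_mod_cast h1
  obtain ⟨k, hk⟩ := hdA
  obtain ⟨k', rfl⟩ : ∃ k', k = k' + 1 := by
    refine ⟨k - 1, ?_⟩
    rcases Nat.eq_zero_or_pos k with rfl | h
    · omega
    · omega
  have hA1 : A - 1 = 4 * d * k' + (4 * d - 1) := by
    rw [hk, mul_add]
    omega
  have hcop : Nat.Coprime (A - 1) A := by
    have h1 : Nat.Coprime (A - 1) (A - 1 + 1) := by simp
    rwa [Nat.sub_add_cancel hA] at h1
  have hodd : Odd (A - 1) := by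
    rw [Nat.odd_iff, hA1]
    have h1 : 4 * d * k' = 2 * (2 * d * k') := by ring
    omega
  have h1 : chi D A (-1) = chi D A ((A - 1 : ℕ) : ℤ) :=
    hc.per _ _ ⟨-1, by push_cast [Nat.cast_sub hA]; ring⟩
  have h5 : (A - 1) % (4 * d) = 4 * d - 1 := by
    rw [hA1, Nat.mul_add_mod, Nat.mod_eq_of_lt (by omega)]
  rw [h1, hc2 _ hcop, jacobiSym.mod_right _ hodd, hd, Int.natAbs_neg, Int.natAbs_natCast, h5]
  exact Pool.Agent.H643.Q648.jac_neg hd1

lemma sq_mod {l : ℕ} (hl : l.Prime) {D X Y : ℤ} (h : (l : ℤ) ∣ X ^ 2 - D * Y ^ 2)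
    (hY : ¬ (l : ℤ) ∣ Y) : ∃ x : ZMod l, x * x = (D : ZMod l) := by
  have : Fact l.Prime := ⟨hl⟩
  have h1 : ((X ^ 2 - D * Y ^ 2 : ℤ) : ZMod l) = 0 := (ZMod.intCast_zmod_eq_zero_iff_dvd _ _).2 h
  have h2 : (Y : ZMod l) ≠ 0 := fun h3 => hY ((ZMod.intCast_zmod_eq_zero_iff_dvd _ _).1 h3)
  push_cast at h1
  refine ⟨(X : ZMod l) / Y, ?_⟩
  rw [div_mul_div_comm, div_eq_iff (mul_ne_zero h2 h2)]
  linear_combination h1

/-- X2 -/
theorem leg2 (h : S_CHI) : S_LEG2 := by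
  intro D A hD hA hDA
  have hD0 : D ≠ 0 := by
    rintro rfl
    exact hD ⟨0, by simp⟩
  obtain ⟨hc, hc2, hc3⟩ := h D A hD0 hA hDA
  have hA16 : 2 ≤ 16 * A := by omega
  obtain ⟨x₀, y₀, r₀, p, hp, hr₀, hx₀, hy₀, he₀, hpA⟩ :=
    leg1 Pool.Agent.H17.Q648.lg0 D (16 * A) hD hA16
  obtain ⟨g, x, y, r, hg, -, -, -, hr, hx, hy, hxy, he, hgA⟩ :=
    prim_div hp hA16 hr₀ hx₀ hy₀ he₀
  have hA16z : (A : ℤ) ∣ ((16 * A : ℕ) : ℤ) := ⟨16, by push_cast; ring⟩
  have hxA : Int.gcd x A = 1 := by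
    have h1 : IsCoprime x ((16 * A : ℕ) : ℤ) := Int.isCoprime_iff_gcd_eq_one.2 hx
    exact Int.isCoprime_iff_gcd_eq_one.1 (h1.of_isCoprime_of_dvd_right hA16z)
  have hyA : (A : ℤ) ∣ y := hA16z.trans hy
  have hA4 : 4 ≤ A := by
    have h1 := Int.natAbs_dvd_natAbs.2 hDA
    rw [Int.natAbs_mul, Int.natAbs_natCast] at h1
    have h2 := Nat.le_of_dvd (by omega) h1
    have h3 : 1 ≤ D.natAbs := Int.natAbs_pos.2 hD0
    have h4 : (4 : ℤ).natAbs = 4 := rfl
    rw [h4] at h2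
    omega
  rcases lt_or_gt_of_ne hD0 with hneg | hpos
  · have h1 := chi_neg_one hneg hA hDA hc hc2
    rcases hc.val x hxA with h2 | h2
    · exact ⟨x, y, r, p, hp, hr, hxA, hyA, hxy, he, h2, fun h => absurd h (not_lt.2 hneg.le)⟩
    · refine ⟨-x, y, r, p, hp, hr, by rw [Int.neg_gcd]; exact hxA, hyA,
        by rw [Int.neg_gcd]; exact hxy, by rw [neg_sq]; exact he, ?_,
        fun h => absurd h (not_lt.2 hneg.le)⟩
      have h3 : -x = (-1) * x := by ring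
      rw [h3, hc.mul, h1, h2]
      norm_num
  · obtain ⟨Dn, rfl⟩ : ∃ Dn : ℕ, D = Dn := Int.eq_ofNat_of_zero_le (le_of_lt hpos)
    have hDn : 0 < Dn := by exact_mod_cast hpos
    have hDAn : 4 * Dn ∣ A := by exact_mod_cast hDA
    have hDnA : Dn ∣ A := (Dvd.intro_left 4 rfl).trans hDAn
    have h2A : 2 ∣ A := (Dvd.intro (2 * Dn) (by ring)).trans hDAn
    have hxn : 0 < x.natAbs := by
      refine Int.natAbs_pos.2 ?_
      rintro rfl
      rw [Int.gcd_zero_left, Int.natAbs_natCast] at hxA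
      omega
    obtain ⟨xn, hxe⟩ : ∃ xn : ℕ, xn = x.natAbs := ⟨_, rfl⟩
    obtain ⟨rn, hre⟩ : ∃ rn : ℕ, rn = r.natAbs := ⟨_, rfl⟩
    have hx2 : (xn : ℤ) ^ 2 = x ^ 2 := by rw [hxe]; exact Int.natAbs_sq x
    have hr2 : (rn : ℤ) ^ 2 = r ^ 2 := by rw [hre]; exact Int.natAbs_sq r
    have hrn : rn ≠ 0 := by rw [hre]; exact Int.natAbs_ne_zero.2 hr
    rw [← hxe] at hxn
    have hxnA : Nat.Coprime xn A := by rw [hxe]; exact hxA
    have hxnAz : Int.gcd (xn : ℤ) A = 1 := by rw [Int.gcd_natCast_natCast]; exact hxnA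
    have hxny : Int.gcd (xn : ℤ) y = 1 := by
      rw [hxe]; exact hxy
    have hen : (xn : ℤ) ^ 2 - (Dn : ℤ) * y ^ 2 = p * r ^ 2 := by rw [hx2]; exact he
    have hcopxy : IsCoprime (xn : ℤ) y := Int.isCoprime_iff_gcd_eq_one.2 hxny
    rcases hc.val xn hxnAz with h2 | h2
    · exact ⟨xn, y, r, p, hp, hr, hxnAz, hyA, hxny, hen, h2, fun _ => by exact_mod_cast hxn⟩
    · by_cases hsum : ∃ a b : ℕ, Dn = a ^ 2 + b ^ 2
      · -- contradiction
        exfalso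
        have hrA : Nat.Coprime rn A := by
          rw [Nat.coprime_iff_gcd_eq_one]
          by_contra hne
          obtain ⟨l, hl, hld⟩ := Nat.exists_prime_and_dvd hne
          have hlr : (l : ℤ) ∣ (rn : ℤ) := by exact_mod_cast hld.trans (Nat.gcd_dvd_left _ _)
          have hlA : l ∣ A := hld.trans (Nat.gcd_dvd_right _ _)
          have hly : (l : ℤ) ∣ y := Dvd.dvd.trans (by exact_mod_cast hlA) hyA
          have h3 : (l : ℤ) ∣ (xn : ℤ) ^ 2 := by
            have h4 : (xn : ℤ) ^ 2 = (Dn : ℤ) * y ^ 2 + p * (rn : ℤ) ^ 2 := by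
              rw [hr2]; linarith
            rw [h4]
            exact dvd_add ((hly.trans (dvd_pow_self _ two_ne_zero)).mul_left _)
              ((hlr.trans (dvd_pow_self _ two_ne_zero)).mul_left _)
          have h5 : l ∣ xn := hl.dvd_of_dvd_pow (by exact_mod_cast h3)
          have h6 : l ∣ 1 := by rw [← hxnA]; exact Nat.dvd_gcd h5 hlA
          exact hl.one_lt.ne' (Nat.dvd_one.1 h6)
        have hchir : chi (Dn : ℤ) A rn = 1 := by
          refine hc3 rn hrA fun l hl hlr => ?_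
          have hlrz : (l : ℤ) ∣ (rn : ℤ) := by exact_mod_cast hlr
          have h3 : (l : ℤ) ∣ (xn : ℤ) ^ 2 - (Dn : ℤ) * y ^ 2 := by
            rw [hen, ← hr2]
            exact (hlrz.trans (dvd_pow_self _ two_ne_zero)).mul_left _
          refine sq_mod hl h3 fun hly => ?_
          have h4 : (l : ℤ) ∣ (xn : ℤ) ^ 2 := by
            have h5 := dvd_add h3 ((hly.trans (dvd_pow_self y two_ne_zero)).mul_left (Dn : ℤ))
            rwa [sub_add_cancel] at h5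
          have h5 : (l : ℤ) ∣ (xn : ℤ) := by
            have h6 : l ∣ xn := hl.dvd_of_dvd_pow (by exact_mod_cast h4)
            exact_mod_cast h6
          have h6 := hcopxy.isUnit_of_dvd' h5 hly
          exact (Nat.prime_iff_prime_int.1 hl).not_isUnit h6
        have hxo : Odd xn := by
          have h3 : Nat.Coprime xn 2 := Nat.Coprime.coprime_dvd_right h2A hxnA
          exact Nat.coprime_two_right.1 h3
        have hro : Odd rn := by
          have h3 : Nat.Coprime rn 2 := Nat.Coprime.coprime_dvd_right h2A hrA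
          exact Nat.coprime_two_right.1 h3
        have h16 : ((16 * Dn : ℕ) : ℤ) ∣ ((16 * A : ℕ) : ℤ) := by
          exact_mod_cast Nat.mul_dvd_mul_left 16 hDnA
        have hdiff : ((16 * Dn : ℕ) : ℤ) ∣ (xn : ℤ) ^ 2 - (rn : ℤ) ^ 2 := by
          have h4 : (xn : ℤ) ^ 2 - (rn : ℤ) ^ 2 = (Dn : ℤ) * y ^ 2 + ((p : ℤ) - 1) * (rn : ℤ) ^ 2 := by
            rw [hr2]; linarith
          rw [h4]
          exact dvd_add (((h16.trans hy).trans (dvd_pow_self _ two_ne_zero)).mul_left _)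
            ((h16.trans hpA).mul_right _)
        have hJ := jac_case1 hDn hsum (Nat.Coprime.coprime_dvd_right hDnA hxnA)
          (Nat.Coprime.coprime_dvd_right hDnA hrA) hxo hro hdiff
        rw [jacobiSym.mul_right' _ hxn.ne' hrn, ← hc2 xn hxnA, ← hc2 rn hrA, h2, hchir] at hJ
        norm_num at hJ
      · rw [Nat.eq_sq_add_sq_iff] at hsum
        push Not at hsum
        obtain ⟨q, hq, hq4, hv⟩ := hsum
        obtain ⟨X, N, hX, hXA, hN, hXN, hJ⟩ :=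
          case2 (Nat.prime_of_mem_primeFactors hq) hq4 hv hDn hA hDAn
        obtain ⟨x2, hx2e⟩ : ∃ x2 : ℤ, x2 = xn * X + Dn * y * (2 * A) := ⟨_, rfl⟩
        obtain ⟨y2, hy2e⟩ : ∃ y2 : ℤ, y2 = xn * (2 * A) + y * X := ⟨_, rfl⟩
        have he2 : x2 ^ 2 - (Dn : ℤ) * y2 ^ 2 = p * (r * N) ^ 2 := by
          have h3 : x2 ^ 2 - (Dn : ℤ) * y2 ^ 2 = ((xn : ℤ) ^ 2 - Dn * y ^ 2) *
              ((X : ℤ) ^ 2 - Dn * (2 * A) ^ 2) := by
            rw [hx2e, hy2e]; ring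
          rw [h3, hen, hXN]
          ring
        have hcopX : IsCoprime ((xn : ℤ) * X) (A : ℤ) :=
          (Nat.isCoprime_iff_coprime.2 hxnA).mul_left (Nat.isCoprime_iff_coprime.2 hXA)
        have hx2A : Int.gcd x2 A = 1 := by
          rw [← Int.isCoprime_iff_gcd_eq_one]
          have h3 : x2 = (xn : ℤ) * X + (A : ℤ) * (2 * Dn * y) := by rw [hx2e]; ring
          rw [h3]
          exact IsCoprime.add_mul_left_left hcopX _
        have hy2A : (A : ℤ) ∣ y2 := by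
          rw [hy2e]
          exact dvd_add ⟨2 * xn, by ring⟩ (hyA.mul_right _)
        obtain ⟨g', x3, y3, r3, hg', hx3, hy3, -, hr3, hx3A, hy3A, hxy3, he3, hg'A⟩ :=
          prim_div hp (by omega : 2 ≤ A) (mul_ne_zero hr hN) hx2A hy2A he2
        have hg1 : chi (Dn : ℤ) A g' = 1 := by
          refine hc3 g' hg'A fun l hl hlg => ?_
          have hlx : (l : ℤ) ∣ x2 := by
            rw [hx3]
            exact Dvd.dvd.mul_right (by exact_mod_cast hlg) _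
          have hly : (l : ℤ) ∣ y2 := by
            rw [hy3]
            exact Dvd.dvd.mul_right (by exact_mod_cast hlg) _
          have hlp : Prime (l : ℤ) := Nat.prime_iff_prime_int.1 hl
          have h3 : (l : ℤ) ∣ xn * N ^ 2 := by
            have h4 : (xn : ℤ) * N ^ 2 = x2 * X - y2 * (Dn * (2 * A)) := by
              rw [← hXN, hx2e, hy2e]; ring
            rw [h4]
            exact dvd_sub (hlx.mul_right _) (hly.mul_right _)
          have h4 : (l : ℤ) ∣ y * N ^ 2 := by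
            have h5 : y * N ^ 2 = y2 * X - x2 * (2 * A) := by
              rw [← hXN, hx2e, hy2e]; ring
            rw [h5]
            exact dvd_sub (hly.mul_right _) (hlx.mul_right _)
          have h5 : (l : ℤ) ∣ N ^ 2 := by
            by_contra h6
            have h7 := (hlp.dvd_mul.1 h3).resolve_right h6
            have h8 := (hlp.dvd_mul.1 h4).resolve_right h6
            exact hlp.not_isUnit (hcopxy.isUnit_of_dvd' h7 h8)
          have h6 : (l : ℤ) ∣ (X : ℤ) ^ 2 - (Dn : ℤ) * (2 * A) ^ 2 := by rw [hXN]; exact h5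
          refine sq_mod hl h6 fun h7 => ?_
          have h8 : l ∣ A := by
            have h9 : l ∣ 2 * A := by exact_mod_cast h7
            rcases (hl.dvd_mul).1 h9 with h10 | h10
            · exact h10.trans h2A
            · exact h10
          have h9 : l ∣ 1 := by rw [← hg'A]; exact Nat.dvd_gcd hlg h8
          exact hl.one_lt.ne' (Nat.dvd_one.1 h9)
        have hchi2 : chi (Dn : ℤ) A x2 = 1 := by
          have h3 : chi (Dn : ℤ) A x2 = chi (Dn : ℤ) A ((xn : ℤ) * X) :=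
            hc.per _ _ ⟨2 * Dn * y, by rw [hx2e]; ring⟩
          rw [h3, hc.mul, h2, hc2 X hXA, hJ]
          norm_num
        have hchi3 : chi (Dn : ℤ) A x3 = 1 := by
          rw [hx3, hc.mul, hg1, one_mul] at hchi2
          exact hchi2
        refine ⟨x3, y3, r3, p, hp, hr3, hx3A, hy3A, hxy3, he3, hchi3, fun _ => ?_⟩
        -- positivity
        have hx2pos : 0 < x2 := by
          have hpz : (0 : ℤ) < p := by exact_mod_cast hp.pos
          have h3 : (Dn : ℤ) * y ^ 2 < (xn : ℤ) ^ 2 := by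
            have h4 : 0 < (p : ℤ) * r ^ 2 := mul_pos hpz (by positivity)
            linarith
          have h4 : (Dn : ℤ) * (2 * A) ^ 2 < (X : ℤ) ^ 2 := by
            have h5 : 0 < N ^ 2 := by positivity
            linarith
          have h5 : ((Dn : ℤ) * y * (2 * A)) ^ 2 < ((xn : ℤ) * X) ^ 2 := by
            have h6 : ((Dn : ℤ) * y * (2 * A)) ^ 2 =
              ((Dn : ℤ) * y ^ 2) * ((Dn : ℤ) * (2 * A) ^ 2) := by ring
            have h7 : ((xn : ℤ) * X) ^ 2 = (xn : ℤ) ^ 2 * (X : ℤ) ^ 2 := mul_pow _ _ _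
            rw [h6, h7]
            exact mul_lt_mul'' h3 h4 (by positivity) (by positivity)
          have h6 := abs_lt_of_sq_lt_sq' h5 (by positivity)
          rw [hx2e]
          linarith [h6.1]
        rw [hx3] at hx2pos
        exact (mul_pos_iff_of_pos_left (by exact_mod_cast hg' : (0 : ℤ) < (g' : ℤ))).1 hx2pos

end Pool.Agent.H264.Q648

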